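import Mathlib
import Pool.Agent.W57.AP4.Main
import Pool.Agent.W57.AP4.Enum

/-!
# A permutation of the positive integers without four-term arithmetic progressions

Davis, Entringer, Graham and Simmons asked in 1977 whether every permutation of the positive integers
contains a four-term arithmetic progression in increasing or in decreasing order. We construct one that
does not.

The order. For `j = 0, 1, 2, …` let `P j` be a function of residue classes (a finite binary tree of
residue classes modulo powers of `2`, with one number attached to each leaf), with
`min (P (j+1)) ≥ 3 max (P j)`. The region of `x` is the number of `j` with `P j x ≤ x`. Numbers are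
ordered by region, and within one region `2`-adically: if `v` is the exponent of `2` in `x - y` then
`x` comes before `y` when the bit of `x` at `v` is the first bit `s` at the node `x mod 2^v`.
At a node inside the tree of `P j` the first bit is the same in the regions `j` and `j+1`, and the
value of `P j` on the child that comes first is at least twice its value on the other child. At a node at or
below a leaf the first bit changes from the region `j` to the region `j+1`. A leaf which contains a
number `t < P (j-1) t` has modulus at least the value of `P j` at it.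

Consider a progression `x, x+d, x+2d, x+3d` and let `v` be the exponent of `2` in `d`. Its last three
terms lie in two consecutive regions `j`, `j+1`, and the bits at `v` alternate. At an inner node a step
from the second child to the first child, forward in time, has to double the number, which is impossible
between the last three terms. At a leaf three consecutive terms of one region are not monotone, two terms in
the region `j` followed by two terms in the region `j+1` are not monotone because the first bit
changes, and the first term can not lie in a region before `j` unless the other three lie in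
the region `j+1`.
-/

set_option autoImplicit false

namespace Pool.Agent.Results.MP_576b63_co.PermutationAvoidingFourAPs

open Pool.Agent.W57.AP4

/-- **There is a permutation `a₁, a₂, a₃, …` of the positive integers which avoids four-term arithmetic
progressions**: for no `i₁ < i₂ < i₃ < i₄` and no integer `d ≠ 0` (positive or negative) are
`a i₁, a i₂, a i₃, a i₄` an arithmetic progression with common difference `d`. -/
theorem result :
    ∃ a : ℕ+ → ℕ+, Function.Bijective a ∧
      ∀ i₁ i₂ i₃ i₄ : ℕ+, i₁ < i₂ → i₂ < i₃ → i₃ < i₄ →
        ∀ d : ℤ, d ≠ 0 →
          ¬ ((a i₂ : ℤ) = a i₁ + d ∧ (a i₃ : ℤ) = a i₂ + d ∧ (a i₄ : ℤ) = a i₃ + d) := by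
  obtain ⟨D⟩ := exists_data
  have hinj : Function.Injective (fun x : ℕ+ => D.key (x : ℕ)) := by
    intro x y hxy
    by_contra hne
    have hne' : (x : ℕ) ≠ (y : ℕ) := fun h => hne (PNat.coe_injective h)
    simp only at hxy
    rcases D.key_total hne' with h | h
    · rw [hxy] at h; exact lt_irrefl _ h
    · rw [hxy] at h; exact lt_irrefl _ h
  have hfin : ∀ x : ℕ+, {y : ℕ+ | D.key (y : ℕ) < D.key (x : ℕ)}.Finite := by
    intro x
    refine (Set.finite_Iic (D.M (D.K x)).succPNat).subset (fun y hy => ?_)
    have h1 := D.K_le_of_key (show D.key (y : ℕ) < D.key (x : ℕ) from hy)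
    have h2 := (D.K_le_iff y (D.K x)).1 h1
    have h3 := D.le_M (D.K x) y
    rw [Set.mem_Iic, ← PNat.coe_le_coe, Nat.succPNat_coe]
    omega
  obtain ⟨e, he⟩ := exists_enum (fun x : ℕ+ => D.key (x : ℕ)) hinj hfin
  refine ⟨fun i => e i.natPred, ?_, ?_⟩
  · exact e.bijective.comp Equiv.pnatEquivNat.bijective
  · intro i₁ i₂ i₃ i₄ h12 h23 h34 d hd
    have mono : ∀ i j : ℕ+, i < j → D.key (e i.natPred : ℕ) < D.key (e j.natPred : ℕ) := by
      intro i j hij
      exact he _ _ (PNat.natPred_lt_natPred.2 hij)
    have k12 := mono _ _ h12
    have k23 := mono _ _ h23
    have k34 := mono _ _ h34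
    rintro ⟨e1, e2, e3⟩
    simp only at e1 e2 e3
    set x₁ : ℕ := (e i₁.natPred : ℕ) with hx1
    set x₂ : ℕ := (e i₂.natPred : ℕ) with hx2
    set x₃ : ℕ := (e i₃.natPred : ℕ) with hx3
    set x₄ : ℕ := (e i₄.natPred : ℕ) with hx4
    have p1 : 0 < x₁ := PNat.pos _
    have p4 : 0 < x₄ := PNat.pos _
    rcases lt_or_gt_of_ne hd with hneg | hpos
    · obtain ⟨c, hc⟩ : ∃ c : ℕ, d = -(c : ℤ) := ⟨d.natAbs, by omega⟩
      have c0 : 0 < c := by omega
      have f3 : x₃ = x₄ + c := by omega
      have f2 : x₂ = x₄ + 2 * c := by omega
      have f1 : x₁ = x₄ + 3 * c := by omega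
      have := (D.no_four x₄ c p4 c0).2
      rw [f1, f2] at k12
      rw [f2, f3] at k23
      rw [f3] at k34
      exact this ⟨k12, k23, k34⟩
    · obtain ⟨c, hc⟩ : ∃ c : ℕ, d = (c : ℤ) := ⟨d.natAbs, by omega⟩
      have c0 : 0 < c := by omega
      have f2 : x₂ = x₁ + c := by omega
      have f3 : x₃ = x₁ + 2 * c := by omega
      have f4 : x₄ = x₁ + 3 * c := by omega
      have := (D.no_four x₁ c p1 c0).1
      rw [f2] at k12
      rw [f2, f3] at k23
      rw [f3, f4] at k34
      exact this ⟨k12, k23, k34⟩

end Pool.Agent.Results.MP_576b63_co.PermutationAvoidingFourAPs
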